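import Mathlib
import Pool.Agent.Helper27.BEL.Defs

/-!
BEL1: finite `k`-uniform hypergraphs that are not 2-colourable and in which every collection of
between 2 and `m` hyperedges has two leaves (amalgamation over partite systems).
-/

set_option autoImplicit false

namespace Pool.Agent.Helper87.BEL

open Pool.Agent.Helper27.BEL

/-- partite amalgamation property -/
def Phi {k a : ℕ} (A : Inst k) (part : A.Z → Fin a) (i : ℕ) : Prop :=
  ∀ χ : A.Z → Bool, ∃ β : Fin a → Bool, ∀ J : Fin k → Fin a, Function.Injective J →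
    ∃ h : A.I, ∀ l, part (A.e h l) = J l ∧ ((J l).val < i → χ (A.e h l) = β (J l))

section Amalg

variable {k a p : ℕ} (A : Inst k) (part : A.Z → Fin a) (i : Fin a)
  (idx : {v : A.Z // part v = i} ≃ Fin p) (K : Inst p)

/-- the copy of the vertex set that belongs to the hyperedge `M` of `K` -/
def emb (M : K.I) (v : A.Z) : K.Z ⊕ (K.I × A.Z) :=
  if h : part v = i then Sum.inl (K.e M (idx ⟨v, h⟩)) else Sum.inr (M, v)

theorem emb_of_eq (M : K.I) (v : A.Z) (h : part v = i) :
    emb A part i idx K M v = Sum.inl (K.e M (idx ⟨v, h⟩)) := by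
  unfold emb; rw [dif_pos h]

theorem emb_of_ne (M : K.I) (v : A.Z) (h : part v ≠ i) :
    emb A part i idx K M v = Sum.inr (M, v) := by
  unfold emb; rw [dif_neg h]

theorem emb_inj (M : K.I) : Function.Injective (emb A part i idx K M) := by
  intro v w hvw
  by_cases hv : part v = i <;> by_cases hw : part w = i
  · rw [emb_of_eq _ _ _ _ _ _ _ hv, emb_of_eq _ _ _ _ _ _ _ hw] at hvw
    have h1 := Sum.inl.inj hvw
    have h2 := K.inj M h1
    have h3 := idx.injective h2
    exact congrArg Subtype.val h3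
  · rw [emb_of_eq _ _ _ _ _ _ _ hv, emb_of_ne _ _ _ _ _ _ _ hw] at hvw
    exact absurd hvw (by simp)
  · rw [emb_of_ne _ _ _ _ _ _ _ hv, emb_of_eq _ _ _ _ _ _ _ hw] at hvw
    exact absurd hvw (by simp)
  · rw [emb_of_ne _ _ _ _ _ _ _ hv, emb_of_ne _ _ _ _ _ _ _ hw] at hvw
    have h1 := Sum.inr.inj hvw
    exact congrArg Prod.snd h1

theorem emb_common {M N : K.I} (hMN : M ≠ N) {v w : A.Z}
    (h : emb A part i idx K N w = emb A part i idx K M v) :
    ∃ (hv : part v = i) (hw : part w = i), K.e N (idx ⟨w, hw⟩) = K.e M (idx ⟨v, hv⟩) := by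
  by_cases hv : part v = i <;> by_cases hw : part w = i
  · rw [emb_of_eq _ _ _ _ _ _ _ hv, emb_of_eq _ _ _ _ _ _ _ hw] at h
    exact ⟨hv, hw, Sum.inl.inj h⟩
  · rw [emb_of_eq _ _ _ _ _ _ _ hv, emb_of_ne _ _ _ _ _ _ _ hw] at h
    exact absurd h (by simp)
  · rw [emb_of_ne _ _ _ _ _ _ _ hv, emb_of_eq _ _ _ _ _ _ _ hw] at h
    exact absurd h (by simp)
  · rw [emb_of_ne _ _ _ _ _ _ _ hv, emb_of_ne _ _ _ _ _ _ _ hw] at h
    have h1 := Sum.inr.inj h
    exact absurd (congrArg Prod.fst h1).symm hMN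

/-- the amalgam -/
def amalg : Inst k where
  Z := K.Z ⊕ (K.I × A.Z)
  I := K.I × A.I
  e q l := emb A part i idx K q.1 (A.e q.2 l)
  inj q := (emb_inj A part i idx K q.1).comp (A.inj q.2)

/-- the parts of the amalgam -/
def apart : (amalg A part i idx K).Z → Fin a
  | Sum.inl _ => i
  | Sum.inr q => part q.2

theorem apart_emb (M : K.I) (v : A.Z) :
    apart A part i idx K (emb A part i idx K M v) = part v := by
  by_cases hv : part v = i
  · rw [emb_of_eq _ _ _ _ _ _ _ hv]; exact hv.symm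
  · rw [emb_of_ne _ _ _ _ _ _ _ hv]; rfl

theorem apart_inj (hpart : ∀ h, Function.Injective (fun l => part (A.e h l)))
    (q : (amalg A part i idx K).I) :
    Function.Injective (fun l => apart A part i idx K ((amalg A part i idx K).e q l)) := by
  intro l l' h
  apply hpart q.2
  have h1 := apart_emb A part i idx K q.1 (A.e q.2 l)
  have h2 := apart_emb A part i idx K q.1 (A.e q.2 l')
  exact h1.symm.trans ((show _ = _ from h).trans h2)

theorem amalg_phi (hcol : ∀ χ : K.Z → Bool, ∃ i : K.I, ∀ a b, χ (K.e i a) = χ (K.e i b))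
    (hphi : Phi A part i.val) : Phi (amalg A part i idx K) (apart A part i idx K) (i.val + 1) := by
  intro χ
  obtain ⟨M, hM⟩ := hcol (fun z => χ (Sum.inl z))
  obtain ⟨β, hβ⟩ := hphi (fun v => χ (emb A part i idx K M v))
  obtain ⟨b, hb⟩ : ∃ b : Bool, ∀ x, χ (Sum.inl (K.e M x)) = b := by
    by_cases hp : Nonempty (Fin p)
    · obtain ⟨x0⟩ := hp
      exact ⟨χ (Sum.inl (K.e M x0)), fun x => hM x x0⟩
    · exact ⟨true, fun x => absurd ⟨x⟩ hp⟩
  refine ⟨Function.update β i b, fun J hJ => ?_⟩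
  obtain ⟨h, hh⟩ := hβ J hJ
  refine ⟨(M, h), fun l => ?_⟩
  obtain ⟨h1, h2⟩ := hh l
  refine ⟨?_, ?_⟩
  · exact (apart_emb A part i idx K M (A.e h l)).trans h1
  · intro hl
    by_cases hi : J l = i
    · rw [hi, Function.update_self]
      have h3 : part (A.e h l) = i := h1.trans hi
      show χ (emb A part i idx K M (A.e h l)) = b
      rw [emb_of_eq _ _ _ _ _ _ _ h3]
      exact hb _
    · rw [Function.update_of_ne hi]
      apply h2
      have h4 : (J l).val ≠ i.val := fun h => hi (Fin.ext h)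
      omega

theorem amalg_twoLeaf (hpart : ∀ h, Function.Injective (fun l => part (A.e h l))) (m : ℕ)
    (hK : K.TwoLeaf m) (hA : A.TwoLeaf (m + 1)) : (amalg A part i idx K).TwoLeaf (m + 1) := by
  classical
  intro S hS2 hSm
  -- the fibre over M
  let F : K.I → Finset A.I := fun M => (S.filter (fun q => q.1 = M)).image Prod.snd
  let L : Finset K.I := S.image Prod.fst
  have memF : ∀ M h, h ∈ F M ↔ ((M, h) : K.I × A.I) ∈ S := by
    intro M h
    constructor
    · intro hh
      obtain ⟨q, hq, rfl⟩ := Finset.mem_image.1 hh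
      obtain ⟨hq1, hq2⟩ := Finset.mem_filter.1 hq
      rw [← hq2]; exact hq1
    · intro hh
      exact Finset.mem_image.2 ⟨(M, h), Finset.mem_filter.2 ⟨hh, rfl⟩, rfl⟩
  have memL : ∀ M, M ∈ L ↔ ∃ h, ((M, h) : K.I × A.I) ∈ S := by
    intro M
    constructor
    · intro hh
      obtain ⟨q, hq, rfl⟩ := Finset.mem_image.1 hh
      exact ⟨q.2, hq⟩
    · rintro ⟨h, hh⟩
      exact Finset.mem_image.2 ⟨(M, h), hh, rfl⟩
  have cardF : ∀ M, (F M).card ≤ m + 1 := fun M =>
    (Finset.card_image_le.trans (Finset.card_filter_le _ _)).trans hSm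
  -- how a vertex can be shared
  have shared : ∀ M h l, (amalg A part i idx K).Shared S (M, h) l →
      A.Shared (F M) h l ∨ ∃ hv : part (A.e h l) = i, K.Shared L M (idx ⟨A.e h l, hv⟩) := by
    rintro M h l ⟨⟨N, h'⟩, hN, hne, l', hl'⟩
    by_cases hMN : M = N
    · subst hMN
      left
      refine ⟨h', (memF _ _).2 hN, fun h0 => hne (by rw [h0]), l', ?_⟩
      exact emb_inj A part i idx K M hl'
    · right
      obtain ⟨hv, hw, he⟩ := emb_common A part i idx K hMN hl'
      exact ⟨hv, N, (memL N).2 ⟨h', hN⟩, fun h0 => hMN h0.symm, _, he⟩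
  -- one leaf inside each leaf of L
  have leafIn : ∀ M ∈ L, K.Leaf L M → ∃ h, ((M, h) : K.I × A.I) ∈ S ∧
      (amalg A part i idx K).Leaf S (M, h) := by
    intro M hM hleaf
    by_cases h2 : 2 ≤ (F M).card
    · obtain ⟨h₁, hh₁, h₂, hh₂, hne, hl₁, hl₂⟩ := hA (F M) h2 (cardF M)
      -- good criterion: no vertex of h is shared in K
      have crit1 : ∀ h ∈ F M, A.Leaf (F M) h →
          (∀ l (hv : part (A.e h l) = i), ¬ K.Shared L M (idx ⟨A.e h l, hv⟩)) →
          (amalg A part i idx K).Leaf S (M, h) := by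
        intro h hh hl hno l l' hs hs'
        rcases shared M h l hs with h3 | ⟨hv, h3⟩
        · rcases shared M h l' hs' with h4 | ⟨hv', h4⟩
          · exact hl l l' h3 h4
          · exact absurd h4 (hno _ _)
        · exact absurd h3 (hno _ _)
      by_cases c1 : ∀ l (hv : part (A.e h₁ l) = i), ¬ K.Shared L M (idx ⟨A.e h₁ l, hv⟩)
      · exact ⟨h₁, (memF _ _).1 hh₁, crit1 h₁ hh₁ hl₁ c1⟩
      by_cases c2 : ∀ l (hv : part (A.e h₂ l) = i), ¬ K.Shared L M (idx ⟨A.e h₂ l, hv⟩)
      · exact ⟨h₂, (memF _ _).1 hh₂, crit1 h₂ hh₂ hl₂ c2⟩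
      push Not at c1 c2
      obtain ⟨l₁, hv₁, hs₁⟩ := c1
      obtain ⟨l₂, hv₂, hs₂⟩ := c2
      have h5 : A.e h₁ l₁ = A.e h₂ l₂ :=
        congrArg Subtype.val (idx.injective (hleaf _ _ hs₁ hs₂))
      have h6 : A.Shared (F M) h₁ l₁ := ⟨h₂, hh₂, hne.symm, l₂, h5.symm⟩
      have key : ∀ l, (amalg A part i idx K).Shared S (M, h₁) l → l = l₁ := by
        intro l hl
        rcases shared M h₁ l hl with h7 | ⟨hv, h7⟩
        · exact hl₁ _ _ h7 h6
        · have h8 : A.e h₁ l = A.e h₁ l₁ :=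
            congrArg Subtype.val (idx.injective (hleaf _ _ h7 hs₁))
          exact A.inj h₁ h8
      exact ⟨h₁, (memF _ _).1 hh₁, fun l l' hl hl' => (key l hl).trans (key l' hl').symm⟩
    · obtain ⟨h, hh⟩ := (memL M).1 hM
      have huniq : ∀ h' ∈ F M, h' = h := by
        have h3 : (F M).card ≤ 1 := by omega
        exact fun h' hh' => Finset.card_le_one.1 h3 h' hh' h ((memF _ _).2 hh)
      refine ⟨h, hh, fun l l' hl hl' => ?_⟩
      have noA : ∀ l, ¬ A.Shared (F M) h l := by
        rintro l ⟨j, hj, hne, _⟩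
        exact hne (huniq j hj)
      rcases shared M h l hl with h3 | ⟨hv, h3⟩
      · exact absurd h3 (noA l)
      rcases shared M h l' hl' with h4 | ⟨hv', h4⟩
      · exact absurd h4 (noA l')
      have h8 : A.e h l = A.e h l' :=
        congrArg Subtype.val (idx.injective (hleaf _ _ h3 h4))
      exact A.inj h h8
  have hLle : L.card ≤ S.card := Finset.card_image_le
  have hLpos : 1 ≤ L.card := by
    have hSne : S.Nonempty := Finset.card_pos.1 (by omega)
    exact Finset.card_pos.2 (hSne.image _)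
  by_cases hL1 : L.card = 1
  · -- a single copy
    obtain ⟨M, hM⟩ := Finset.card_eq_one.1 hL1
    have hall : ∀ q ∈ S, q.1 = M := by
      intro q hq
      have h3 : q.1 ∈ L := Finset.mem_image.2 ⟨q, hq, rfl⟩
      rw [hM] at h3
      exact Finset.mem_singleton.1 h3
    have hcard : S.card = (F M).card := by
      have h3 : S.filter (fun q => q.1 = M) = S := Finset.filter_true_of_mem hall
      show S.card = ((S.filter (fun q => q.1 = M)).image Prod.snd).card
      rw [h3]
      refine (Finset.card_image_of_injOn ?_).symm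
      intro q hq q' hq' hqq
      exact Prod.ext ((hall q hq).trans (hall q' hq').symm) hqq
    obtain ⟨h₁, hh₁, h₂, hh₂, hne, hl₁, hl₂⟩ := hA (F M) (by omega) (cardF M)
    have noK : ∀ x, ¬ K.Shared L M x := by
      rintro x ⟨N, hN, hne, _⟩
      rw [hM] at hN
      exact hne (Finset.mem_singleton.1 hN)
    have good : ∀ h, A.Leaf (F M) h → (amalg A part i idx K).Leaf S (M, h) := by
      intro h hl l l' hs hs'
      rcases shared M h l hs with h3 | ⟨hv, h3⟩
      · rcases shared M h l' hs' with h4 | ⟨hv', h4⟩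
        · exact hl l l' h3 h4
        · exact absurd h4 (noK _)
      · exact absurd h3 (noK _)
    refine ⟨(M, h₁), (memF _ _).1 hh₁, (M, h₂), (memF _ _).1 hh₂, ?_, good h₁ hl₁, good h₂ hl₂⟩
    intro h0
    exact hne (congrArg Prod.snd h0)
  by_cases hLm : L.card ≤ m
  · obtain ⟨M, hM, N, hN, hMN, hlM, hlN⟩ := hK L (by omega) hLm
    obtain ⟨h₁, hh₁, hl₁⟩ := leafIn M hM hlM
    obtain ⟨h₂, hh₂, hl₂⟩ := leafIn N hN hlN
    refine ⟨(M, h₁), hh₁, (N, h₂), hh₂, ?_, hl₁, hl₂⟩
    intro h0
    exact hMN (congrArg Prod.fst h0)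
  · -- all copies are different
    have hinj : ∀ q ∈ S, ∀ q' ∈ S, q.1 = q'.1 → q = q' := by
      have h0 := Finset.injOn_of_card_image_eq (f := (Prod.fst : K.I × A.I → K.I)) (s := S)
        (show L.card = S.card by omega)
      intro q hq q' hq' hqq
      exact h0 hq hq' hqq
    have good : ∀ q ∈ S, (amalg A part i idx K).Leaf S q := by
      rintro ⟨M, h⟩ hq l l' hs hs'
      have key : ∀ l, (amalg A part i idx K).Shared S (M, h) l → part (A.e h l) = i := by
        intro l hl
        rcases shared M h l hl with h3 | ⟨hv, h3⟩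
        · obtain ⟨j, hj, hne, _⟩ := h3
          have h4 : ((M, j) : K.I × A.I) ∈ S := (memF _ _).1 hj
          have h5 := hinj _ h4 _ hq rfl
          exact absurd (congrArg Prod.snd h5) hne
        · exact hv
      exact hpart h ((key l hs).trans (key l' hs').symm)
    obtain ⟨q, hq, q', hq', hne⟩ := Finset.one_lt_card.1 (show 1 < S.card by omega)
    exact ⟨q, hq, q', hq', hne, good q hq, good q' hq'⟩

end Amalg

/-- partite start: disjoint hyperedges -/
noncomputable def start (k a : ℕ) : Inst k where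
  Z := (Fin k ↪ Fin a) × Fin k
  I := Fin k ↪ Fin a
  e J l := (J, l)
  inj J := fun l l' h => congrArg Prod.snd h

theorem start_twoLeaf (k a m : ℕ) : (start k a).TwoLeaf m := by
  intro S hS _
  have good : ∀ J, (start k a).Leaf S J := by
    rintro J x y ⟨J', _, hne, b, hb⟩ _
    exact absurd (congrArg Prod.fst hb) hne
  obtain ⟨q, hq, q', hq', hne⟩ := Finset.one_lt_card.1 (show 1 < S.card by omega)
  exact ⟨q, hq, q', hq', hne, good q, good q'⟩

theorem const_inj (k : ℕ) (β : Fin (2 * k) → Bool) :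
    ∃ J : Fin k → Fin (2 * k), Function.Injective J ∧ ∀ x y, β (J x) = β (J y) := by
  classical
  obtain ⟨b, hb⟩ : ∃ b : Bool, k ≤ (Finset.univ.filter (fun x => β x = b)).card := by
    by_contra hcon
    push Not at hcon
    have h1 := hcon true
    have h2 := hcon false
    have h3 : (Finset.univ.filter (fun x => β x = true)).card
        + (Finset.univ.filter (fun x => ¬ (β x = true))).card = 2 * k := by
      rw [Finset.card_filter_add_card_filter_not]; simp
    have h4 : (Finset.univ.filter (fun x => ¬ (β x = true)))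
        = (Finset.univ.filter (fun x => β x = false)) := by
      ext x; simp
    rw [h4] at h3
    omega
  obtain ⟨T, hT, hTk⟩ := Finset.exists_subset_card_eq hb
  refine ⟨fun x => (T.orderEmbOfFin hTk) x, (T.orderEmbOfFin hTk).injective, fun x y => ?_⟩
  have h5 : ∀ x, β ((T.orderEmbOfFin hTk) x) = b := fun x =>
    (Finset.mem_filter.1 (hT (Finset.orderEmbOfFin_mem T hTk x))).2
  rw [h5, h5]

theorem partite (k a m : ℕ)
    (IH : ∀ p : ℕ, ∃ K : Inst p, K.TwoLeaf m ∧
      ∀ χ : K.Z → Bool, ∃ i : K.I, ∀ a b, χ (K.e i a) = χ (K.e i b)) :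
    ∀ i : ℕ, i ≤ a → ∃ (A : Inst k) (part : A.Z → Fin a),
      (∀ h, Function.Injective (fun l => part (A.e h l))) ∧ A.TwoLeaf (m + 1) ∧ Phi A part i := by
  intro i
  induction i with
  | zero =>
    intro _
    refine ⟨start k a, fun q => q.1 q.2, fun J => J.injective, start_twoLeaf k a (m + 1), ?_⟩
    intro χ
    refine ⟨fun _ => true, fun J hJ => ⟨⟨J, hJ⟩, fun l => ⟨rfl, fun h => absurd h (by omega)⟩⟩⟩
  | succ i ih =>
    intro hi
    obtain ⟨A, part, hpart, hA, hphi⟩ := ih (by omega)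
    obtain ⟨K, hK, hcol⟩ := IH (Fintype.card {v : A.Z // part v = (⟨i, by omega⟩ : Fin a)})
    let i' : Fin a := ⟨i, by omega⟩
    let idx : {v : A.Z // part v = i'} ≃ Fin _ := Fintype.equivFin _
    exact ⟨amalg A part i' idx K, apart A part i' idx K, apart_inj A part i' idx K hpart,
      amalg_twoLeaf A part i' idx K hpart m hK hA, amalg_phi A part i' idx K hcol hphi⟩

/-- BEL1 -/
theorem exists_hyper (m k : ℕ) : ∃ A : Inst k, A.TwoLeaf m ∧
    ∀ χ : A.Z → Bool, ∃ i : A.I, ∀ a b, χ (A.e i a) = χ (A.e i b) := by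
  classical
  induction m generalizing k with
  | zero =>
    refine ⟨{ Z := Fin (2 * k), I := Fin k ↪ Fin (2 * k), e := fun J l => J l,
              inj := fun J => J.injective }, ?_, ?_⟩
    · intro S h1 h2
      omega
    · intro χ
      obtain ⟨J, hJ, hc⟩ := const_inj k χ
      exact ⟨⟨J, hJ⟩, hc⟩
  | succ m ih =>
    obtain ⟨A, part, hpart, hA, hphi⟩ := partite k (2 * k) m (fun p => ih p) (2 * k) le_rfl
    refine ⟨A, hA, fun χ => ?_⟩
    obtain ⟨β, hβ⟩ := hphi χ
    obtain ⟨J, hJ, hc⟩ := const_inj k β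
    obtain ⟨h, hh⟩ := hβ J hJ
    refine ⟨h, fun x y => ?_⟩
    rw [(hh x).2 (J x).isLt, (hh y).2 (J y).isLt]
    exact hc x y

end Pool.Agent.Helper87.BEL
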